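import Pool.Agent.Seat79.LMain

/-!
# The time scaling must be at least linear, up to the maximal degree

Simple random walks, started from stationarity, on random quadrangulations with `N k` faces and
with maximal degree at most `Δ k` (with probability tending to one): if, rescaled in space by
`a k → 0` and run at speed `t k`, they converge in law in the Gromov-Hausdorff-Prokhorov-uniform
topology to Liouville Brownian motion, or to any time-changed Brownian motion on any random
sphere, then `t k ≥ c * N k / Δ k` for a constant `c > 0`.

* `LHit`, `LProb`: the probability that the stationary walk goes from a set to another one within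
  `T` steps is at most of the order of the square root of `T E(f) / N`, for all functions `f` which
  separate the two sets, where `E` is the Dirichlet energy;
* `LHom`, `LDual`, `LHarm`: the conjugate function (on the faces) of the harmonic function between
  two disjoint connected sets `A`, `B`, and the energy of the functions which separate the two
  sides of a sector;
* `LPair`: the walk joins `A` to `B` and separates `A` from `B`, within `T` steps, with probability
  at most `32 sqrt (T Δ / N)`;
* `LSep`, `LTour`, `LGood`: a walk which is uniformly close to a planar curve which makes a certain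
  tour joins and separates two balls of every net; Brownian motion makes this tour with positive
  probability;
* `LMain`: the conclusion.
-/

set_option autoImplicit false

open scoped NNReal ENNReal Topology
open MeasureTheory ProbabilityTheory Filter Set

open Pool.Agent.Helper363_LBM

/-- Let `Q k` be random quadrangulations of the sphere with `N k` faces, with simple random walks
`e k` such that the first dart is uniform given `Q k`. Suppose that the probability that some vertex
has degree more than `Δ k` tends to `0`. Suppose that, with edges of length `a k → 0`, mass `b k`
at every vertex and the walk run at speed `t k`, they converge in law in the GHPU topology to a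
random sphere with a time-changed Brownian motion. Then `t k * Δ k ≥ c * N k` for all large `k`,
for some constant `c > 0`. -/
theorem Pool.Agent.Results.MP_7a6434d8_pr.TimeScaleLowerBound.result
    {Ωs : ℕ → Type} [∀ k, MeasurableSpace (Ωs k)] (Ps : ∀ k, Measure (Ωs k))
    [∀ k, IsProbabilityMeasure (Ps k)] (N : ℕ → ℕ) (Q : ∀ k, Ωs k → Quad (N k))
    (e : ∀ k, Ωs k → ℕ → Fin (4 * N k)) (hS : ∀ k, IsSRW (Ps k) (Q k) (e k))
    (hst : ∀ k (q : Quad (N k)) (d : Fin (4 * N k)),
      Ps k {ω | Q k ω = q ∧ e k ω 0 = d} = Ps k {ω | Q k ω = q} / (4 * N k : ℕ))
    (Δ : ℕ → ℝ)
    (hΔ : Tendsto (fun k => (Ps k).real {ω | ∃ v, Δ k < (Q k ω).deg v}) atTop (𝓝 0))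
    (a b t : ℕ → ℝ≥0) (ha : Tendsto a atTop (𝓝 0))
    {Ω : Type} [MeasurableSpace Ω] (P : Measure Ω) [IsProbabilityMeasure P] (Z : Ω → MMC)
    (hZ : @Measurable Ω MMC _ (borel MMC) Z) (hlim : IsBrownianSphere P Z)
    (hconv : ConvergesInLaw Ps
      (fun k ω => walkSpace (Q k ω) (a k) (b k) (t k) (e k ω) ((hS k).path ω)) P Z) :
    ∃ c : ℝ, 0 < c ∧ ∀ᶠ k in atTop, c * N k ≤ t k * Δ k :=
  Pool.Agent.Seat79.L.lower_bound hS hst ha hΔ hZ hlim hconv
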