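import Pool.Agent.Seat79.LUniform
import Pool.Agent.Seat79.TCollapse
import Pool.Agent.Seat79.TLow

/-!
# The time scaling for uniform quadrangulations is at least `c N / log N`

If simple random walk on uniform rooted quadrangulations with `N k → ∞` faces, started at the root
vertex, rescaled in space by `a k → 0` and run at speed `t k`, converges in law in the
Gromov-Hausdorff-Prokhorov-uniform topology to Liouville Brownian motion, or to any time-changed
Brownian motion on any random sphere, then `t k ≥ c * N k / log (N k)` for a constant `c > 0`.

The first part of the proof (`Pool.Agent.Seat79.LMain`) is the bound `t k ≥ c * N k / Δ k` for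
stationary random walks on random quadrangulations with maximal degree at most `Δ k`. The second
part is the exponential tail of the degrees of uniform quadrangulations:

* `TDefs`, `TStm`: quadrangulations in terms of their faces;
* `TOpen`: two edges which issue from the same vertex are cut and a square is glued in, so
  `M_N(deg ≥ k) ≤ M_{N+1}(deg = k)` for the normalised numbers;
* `TCollapse`: the inverse operation, at a vertex of small degree;
* `TLow`: a positive fraction of the darts has small degree, so `M_{N+1} ≤ 400 M_N`;
* `TCount`: labels; `TTail`: the exponential moment of the degree is at most `3`;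
* `LUniform`: the conclusion.
-/

set_option autoImplicit false

open scoped NNReal ENNReal Topology
open MeasureTheory ProbabilityTheory Filter Set

open Pool.Agent.Helper363_LBM

/-- Let `Q k` be random quadrangulations of the sphere with `N k → ∞` faces, with simple random
walks `e k` such that the pair of the quadrangulation `Q k` and its first dart `e k 0` is uniform.
Suppose that, with edges of length `a k → 0`, mass `b k` at every vertex and the walk run at speed
`t k`, they converge in law in the GHPU topology to a random sphere with a time-changed Brownian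
motion. Then `t k ≥ c * N k / log (N k)` for all large `k`, for some constant `c > 0`. -/
theorem Pool.Agent.Results.MP_7a6434d8_pr.TimeScaleUniform.result
    {Ωs : ℕ → Type} [∀ k, MeasurableSpace (Ωs k)] (Ps : ∀ k, Measure (Ωs k))
    [∀ k, IsProbabilityMeasure (Ps k)] (N : ℕ → ℕ) (hN : Tendsto N atTop atTop)
    (Q : ∀ k, Ωs k → Quad (N k)) (e : ∀ k, Ωs k → ℕ → Fin (4 * N k))
    (hS : ∀ k, IsSRW (Ps k) (Q k) (e k))
    (hu : ∀ k (q : Quad (N k)) (d : Fin (4 * N k)),
      Ps k {ω | Q k ω = q ∧ e k ω 0 = d} = (Nat.card (Quad (N k) × Fin (4 * N k)) : ℝ≥0∞)⁻¹)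
    (a b t : ℕ → ℝ≥0) (ha : Tendsto a atTop (𝓝 0))
    {Ω : Type} [MeasurableSpace Ω] (P : Measure Ω) [IsProbabilityMeasure P] (Z : Ω → MMC)
    (hZ : @Measurable Ω MMC _ (borel MMC) Z) (hlim : IsBrownianSphere P Z)
    (hconv : ConvergesInLaw Ps
      (fun k ω => walkSpace (Q k ω) (a k) (b k) (t k) (e k ω) ((hS k).path ω)) P Z) :
    ∃ c : ℝ, 0 < c ∧ ∀ᶠ k in atTop, c * N k / Real.log (N k) ≤ t k :=
  Pool.Agent.Seat79.L.uniform_bound Pool.Agent.Seat79.T.collapse Pool.Agent.Seat79.T.low hN hS hu ha
    hZ hlim hconv
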